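import Pool.Agent.Work.MP_20070e_gt.N2
import Pool.Agent.Work.MP_20070e_gt.L1
import Pool.Agent.Work.MP_20070e_gt.L2
import Pool.Agent.Work.MP_20070e_gt.L3

set_option autoImplicit false

namespace Pool.Agent.Work.MP_20070e_gt.Old.NotExtendable

open Pool.Agent.Work.MP_20070e_gt

/-- **Negative answer to Q1.**  There is a (cocompact) lattice `Γ < SL_3(ℝ)` with a smooth action on
a three-dimensional manifold `M` and an invariant embedded copy of `S²` on which `Γ` acts in the
standard way, such that the action does not extend to a local `SL_3(ℝ)`-action on any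
neighbourhood of that sphere. -/
theorem result : ∃ Γ : Subgroup (SLn 3), IsLattice Γ ∧ IsUniformLattice Γ ∧
    HasNonExtendableAction (m := 2) Γ := by
  obtain ⟨D⟩ := exists_orderData
  obtain ⟨Γ, hΓ, χ, hχ⟩ := exists_lattice_of D (minkProp_of_indep D.B D.indep)
  exact ⟨Γ, hΓ.isLattice, hΓ, nonExtendable (by norm_num) Γ hΓ χ hχ⟩

end Pool.Agent.Work.MP_20070e_gt.Old.NotExtendable
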